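import Mathlib

set_option autoImplicit false

namespace Pool.Agent.H189R2.Hall

open Matrix Finset

/-- The trace of an idempotent rational matrix is a natural number. -/
theorem idem_trace {ι : Type*} [Fintype ι] [DecidableEq ι] (P : Matrix ι ι ℚ) (h : P * P = P) :
    ∃ s : ℕ, P.trace = s := by
  have h2 : IsIdempotentElem (Matrix.toLin' P) := by
    unfold IsIdempotentElem
    rw [Module.End.mul_eq_comp, ← Matrix.toLin'_mul, h]
  refine ⟨Module.finrank ℚ (LinearMap.range (Matrix.toLin' P)), ?_⟩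
  rw [← Matrix.trace_toLin'_eq]
  exact (LinearMap.IsIdempotentElem.isProj_range _ h2).trace

section
variable {H : Type*} [Group H] [Fintype H] [DecidableEq H]

/-- group matrix of a function -/
def gm (f : H → ℚ) : Matrix H H ℚ := Matrix.of fun x y => f (x * y⁻¹)

/-- convolution -/
def cv (f g : H → ℚ) : H → ℚ := fun q => ∑ u, f u * g (u⁻¹ * q)

theorem gm_mul (f g : H → ℚ) : gm f * gm g = gm (cv f g) := by
  ext x y
  simp only [gm, Matrix.mul_apply, Matrix.of_apply, cv]
  refine Fintype.sum_equiv ((Equiv.inv H).trans (Equiv.mulLeft x)) _ _ ?_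
  intro z
  simp [mul_assoc]

theorem cv_comm (hc : ∀ x y : H, x * y = y * x) (f g : H → ℚ) : cv f g = cv g f := by
  ext q
  simp only [cv]
  refine Fintype.sum_equiv ((Equiv.inv H).trans (Equiv.mulRight q)) _ _ ?_
  intro u
  have : (u⁻¹ * q)⁻¹ * q = u := by
    rw [_root_.mul_inv_rev, inv_inv, hc q⁻¹ u, mul_assoc]; simp
  show f u * g (u⁻¹ * q) = g (u⁻¹ * q) * f ((u⁻¹ * q)⁻¹ * q)
  rw [this, mul_comm]

theorem gm_comm (hc : ∀ x y : H, x * y = y * x) (f g : H → ℚ) :
    gm f * gm g = gm g * gm f := by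
  rw [gm_mul, gm_mul, cv_comm hc]

theorem gm_transpose (f : H → ℚ) : (gm f)ᵀ = gm (fun q => f q⁻¹) := by
  ext x y
  simp [gm]

theorem gm_mul_one (f : H → ℚ) : gm f * gm (fun _ => 1) = (∑ u, f u) • gm (fun _ : H => (1:ℚ)) := by
  rw [gm_mul]
  ext x y
  simp [gm, cv]

theorem gm_one_mul (f : H → ℚ) : gm (fun _ => 1) * gm f = (∑ u, f u) • gm (fun _ : H => (1:ℚ)) := by
  rw [gm_mul]
  ext x y
  simp only [gm, cv, one_mul, Matrix.of_apply, Matrix.smul_apply, smul_eq_mul, mul_one]
  exact Fintype.sum_equiv ((Equiv.inv H).trans (Equiv.mulRight (x * y⁻¹))) _ _ (by intro u; simp [mul_assoc])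

/-- Key lemma: two functions `a, b` on a finite abelian group with
`a⋆a* + b⋆b* = n δ + L` and `2 a * b = L` satisfy the integrality
`n s = |H| ∑ a² - (∑ a)²`. -/
theorem key (hc : ∀ x y : H, x * y = y * x) (a b : H → ℚ) (n L : ℚ) (hn : n ≠ 0)
    (h1 : ∀ q : H, ∑ u, a (q * u) * a u + ∑ u, b (q * u) * b u = (if q = 1 then n else 0) + L)
    (h2 : ∀ q : H, 2 * ∑ u, a u * b (u⁻¹ * q) = L) :
    (∃ s : ℕ, n * s = (Fintype.card H : ℚ) * ∑ u, a u ^ 2 - (∑ u, a u) ^ 2) ∧
      (∑ u, a u) ^ 2 + (∑ u, b u) ^ 2 = n + L * (Fintype.card H : ℚ) ∧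
      2 * ((∑ u, a u) * (∑ u, b u)) = L * (Fintype.card H : ℚ) := by
  classical
  set J : Matrix H H ℚ := gm (fun _ : H => (1:ℚ)) with hJ
  set A := gm a with hA
  set B := gm b with hB
  set α := ∑ u, a u with hα
  set β := ∑ u, b u with hβ
  set c : ℚ := (Fintype.card H : ℚ) with hcdef
  have hc0 : c ≠ 0 := by
    rw [hcdef]
    have : 0 < Fintype.card H := Fintype.card_pos
    positivity
  have hJJ : J * J = c • J := by
    rw [hJ, gm_mul_one]
    simp [hcdef, Finset.card_univ]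
  have hAJ : A * J = α • J := gm_mul_one a
  have hJA : J * A = α • J := gm_one_mul a
  have hBJ : B * J = β • J := gm_mul_one b
  have hJB : J * B = β • J := gm_one_mul b
  have hJT : Jᵀ = J := by rw [hJ, gm_transpose]
  have hATJ : Aᵀ * J = α • J := by
    have := congrArg Matrix.transpose hJA
    rw [Matrix.transpose_mul, Matrix.transpose_smul, hJT] at this
    exact this
  have hBTJ : Bᵀ * J = β • J := by
    have := congrArg Matrix.transpose hJB
    rw [Matrix.transpose_mul, Matrix.transpose_smul, hJT] at this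
    exact this
  have hJBT : J * Bᵀ = β • J := by
    have := congrArg Matrix.transpose hBJ
    rw [Matrix.transpose_mul, Matrix.transpose_smul, hJT] at this
    exact this
  have hJAT : J * Aᵀ = α • J := by
    have := congrArg Matrix.transpose hAJ
    rw [Matrix.transpose_mul, Matrix.transpose_smul, hJT] at this
    exact this
  -- the two matrix equations
  have gmT : ∀ f : H → ℚ, gm f * (gm f)ᵀ = Matrix.of fun x y => ∑ u, f ((x * y⁻¹) * u) * f u := by
    intro f
    ext x y
    simp only [gm, Matrix.mul_apply, Matrix.of_apply, Matrix.transpose_apply]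
    refine Fintype.sum_equiv ((Equiv.inv H).trans (Equiv.mulLeft y)) _ _ ?_
    intro z
    simp [mul_assoc]
  have e1 : A * Aᵀ + B * Bᵀ = n • (1 : Matrix H H ℚ) + L • J := by
    rw [hA, hB, gmT, gmT]
    ext x y
    simp only [Matrix.add_apply, Matrix.of_apply, Matrix.smul_apply, smul_eq_mul, hJ, gm]
    rw [h1]
    by_cases hxy : x = y
    · subst hxy; simp
    · have : x * y⁻¹ ≠ 1 := by
        intro h; exact hxy (mul_inv_eq_one.mp h)
      simp [this, Matrix.one_apply_ne hxy]
  have e2 : (2:ℚ) • (A * B) = L • J := by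
    rw [hA, hB, gm_mul]
    ext x y
    simp only [Matrix.smul_apply, smul_eq_mul, hJ, gm, Matrix.of_apply, cv, mul_one]
    exact h2 _
  -- scalar consequences
  have hJne : J ≠ 0 := by
    intro h
    have := congrFun (congrFun h 1) 1
    simp [hJ, gm] at this
  have s1 : α ^ 2 + β ^ 2 = n + L * c := by
    have h3 := congrArg (fun M => M * J) e1
    simp only [add_mul, Matrix.mul_assoc, hATJ, hBTJ, Matrix.mul_smul, hAJ, hBJ, Matrix.smul_mul,
      one_mul, hJJ] at h3
    have h4 := congrFun (congrFun h3 1) 1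
    simp [hJ, gm] at h4
    linarith
  have s2 : 2 * (α * β) = L * c := by
    have h3 := congrArg (fun M => M * J) e2
    simp only [Matrix.mul_assoc, Matrix.mul_smul, hAJ, hBJ, Matrix.smul_mul, hJJ] at h3
    have h4 := congrFun (congrFun h3 1) 1
    simp [hJ, gm] at h4
    linarith
  -- commutation
  have hcomm : Aᵀ * (B * Bᵀ) = (B * Bᵀ) * Aᵀ := by
    rw [hA, hB, gm_transpose, gm_transpose, gm_mul, gm_comm hc]
  have e3 : (A * Aᵀ) * (B * Bᵀ) = (L ^ 2 / 4 * c) • J := by
    have h5 : A * B = (L / 2) • J := by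
      have : A * B = (1/2 : ℚ) • ((2:ℚ) • (A * B)) := by
        rw [smul_smul]; norm_num
      rw [this, e2, smul_smul]; congr 1; ring
    have h6 : (A * Aᵀ) * (B * Bᵀ) = (A * B) * (A * B)ᵀ := by
      rw [Matrix.mul_assoc, hcomm, Matrix.transpose_mul]
      simp only [Matrix.mul_assoc]
    rw [h6, h5, Matrix.transpose_smul, hJT, Matrix.smul_mul, Matrix.mul_smul, hJJ, smul_smul,
      smul_smul]
    congr 1; ring
  set P : Matrix H H ℚ := (1/n) • (A * Aᵀ - (α ^ 2 / c) • J) with hP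
  have hS : (A * Aᵀ) * (A * Aᵀ) = n • (A * Aᵀ) + (L * α ^ 2 - L ^ 2 / 4 * c) • J := by
    have h7 : A * Aᵀ = n • (1 : Matrix H H ℚ) + L • J - B * Bᵀ := by
      rw [← e1]; simp
    calc (A * Aᵀ) * (A * Aᵀ) = (A * Aᵀ) * (n • (1 : Matrix H H ℚ) + L • J - B * Bᵀ) := by rw [← h7]
      _ = n • (A * Aᵀ) + (L * α ^ 2 - L ^ 2 / 4 * c) • J := by
          rw [mul_sub, mul_add, e3, Matrix.mul_smul, mul_one, Matrix.mul_smul, Matrix.mul_assoc A Aᵀ J,
            hATJ, Matrix.mul_smul, hAJ, smul_smul, smul_smul, add_sub_assoc, ← sub_smul]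
          congr 3; ring
  have hSJ : (A * Aᵀ) * J = (α ^ 2) • J := by
    rw [Matrix.mul_assoc, hATJ, Matrix.mul_smul, hAJ, smul_smul]; congr 1; ring
  have hJS : J * (A * Aᵀ) = (α ^ 2) • J := by
    rw [← Matrix.mul_assoc, hJA, Matrix.smul_mul, hJAT, smul_smul]; congr 1; ring
  have hPP : P * P = P := by
    rw [hP, Matrix.smul_mul, Matrix.mul_smul, smul_smul, sub_mul, mul_sub, mul_sub, hS,
      Matrix.mul_smul, Matrix.smul_mul, hSJ, Matrix.mul_smul, hJS, Matrix.smul_mul, hJJ]
    simp only [smul_smul, smul_sub, smul_add, ← mul_assoc]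
    have hL2 : L ^ 2 / 4 * c = α ^ 2 * β ^ 2 / c := by
      have : (L * c) ^ 2 = 4 * (α ^ 2 * β ^ 2) := by rw [← s2]; ring
      field_simp
      linear_combination this
    ext x y
    simp only [Matrix.add_apply, Matrix.sub_apply, Matrix.smul_apply, smul_eq_mul]
    have hJxy : J x y = 1 := by simp [hJ, gm]
    rw [hJxy, hL2]
    have hLα : L = (α ^ 2 + β ^ 2 - n) / c := by
      field_simp; linarith
    rw [hLα]
    field_simp
    ring
  obtain ⟨s, hs⟩ := idem_trace P hPP
  refine ⟨⟨s, ?_⟩, s1, s2⟩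
  rw [← hs, hP, Matrix.trace_smul, Matrix.trace_sub, Matrix.trace_smul]
  have t1 : (A * Aᵀ).trace = c * ∑ u, a u ^ 2 := by
    rw [hA, gmT]
    simp [Matrix.trace, Finset.card_univ, hcdef, sq]
  have t2 : J.trace = c := by
    simp [Matrix.trace, hJ, gm, hcdef]
  rw [t1, t2]
  simp only [smul_eq_mul]
  field_simp

end

end Pool.Agent.H189R2.Hall
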