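import Mathlib

set_option autoImplicit false

namespace Pool.Agent.H189R2.Hall

/-- The number-theoretic part. -/
theorem nt (m lam c e s h x y : ℤ) (hlam : 1 ≤ lam) (hc : 1 ≤ c) (he0 : 0 ≤ e)
    (he1 : e ≤ lam * (c - 1)) (hx : x = m ^ 2 + lam + m) (hy : y = m ^ 2 + lam - m)
    (hxy : x * y = 2 * lam * c * h)
    (hs : 4 * (m ^ 2 * s) = 2 * h * (x + 2 * e) - x ^ 2) : |m| ≤ 2 * lam ^ 3 * c := by
  have hlam3 : 1 ≤ lam ^ 3 := one_le_pow₀ hlam
  have hlam2 : 1 ≤ lam ^ 2 := one_le_pow₀ hlam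
  have hlam23 : lam ^ 2 ≤ lam ^ 3 := by
    have : lam ^ 3 = lam ^ 2 * lam := by ring
    rw [this]; nlinarith
  by_cases hm : m = 0
  · subst hm; simp; positivity
  have main : 4 * lam * c * m ^ 2 * s = x * (x * y + 2 * e * y - lam * c * x) := by
    have : 4 * lam * c * m ^ 2 * s = lam * c * (4 * (m ^ 2 * s)) := by ring
    rw [this, hs]
    linear_combination (-(x + 2 * e)) * hxy
  have hd : m ^ 2 ∣ x * (x * y + 2 * e * y - lam * c * x) :=
    ⟨4 * lam * c * s, by rw [← main]; ring⟩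
  by_cases h0 : lam + 2 * e - lam * c = 0
  · have h2e : 2 * e = lam * (c - 1) := by linarith
    have hd2 : m ^ 2 ∣ m * (lam ^ 2 * (2 * c - 1)) := by
      have key : x * (x * y + 2 * e * y - lam * c * x) =
          - (m * (lam ^ 2 * (2 * c - 1))) + m ^ 2 *
            (-(lam + m + lam * (2 * c - 1)) +
              ((lam + m) * (((lam + m) + (lam - m) + m ^ 2) + lam * (c - 1) - lam * c) +
               (x * y + lam * (c - 1) * y - lam * c * x))) := by
        rw [h2e, hx, hy]; ring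
      rw [key] at hd
      have h3 : m ^ 2 ∣ -(m * (lam ^ 2 * (2 * c - 1))) := (Int.dvd_add_left (dvd_mul_right _ _)).mp hd
      exact (dvd_neg).mp h3
    have hd3 : m ∣ lam ^ 2 * (2 * c - 1) := by
      rw [sq] at hd2
      exact (mul_dvd_mul_iff_left hm).mp hd2
    have hpos : 0 < lam ^ 2 * (2 * c - 1) := by
      have : 0 < 2 * c - 1 := by linarith
      positivity
    have h4 : |m| ≤ lam ^ 2 * (2 * c - 1) := Int.le_of_dvd hpos ((abs_dvd _ _).mpr hd3)
    have h5 : lam ^ 2 * (2 * c - 1) ≤ lam ^ 3 * (2 * c) := by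
      apply mul_le_mul hlam23 (by linarith) (by linarith) (by positivity)
    linarith
  · have hd1 : m ∣ x * (x * y + 2 * e * y - lam * c * x) :=
      dvd_trans ⟨m, by ring⟩ hd
    have key : x * (x * y + 2 * e * y - lam * c * x) =
        lam ^ 2 * (lam + 2 * e - lam * c) + m *
          ((m + 1) * (x * y + 2 * e * y - lam * c * x) +
            lam * ((m + 1) * y + lam * (m - 1) + 2 * e * (m - 1) - lam * c * (m + 1))) := by
      rw [hx, hy]; ring
    rw [key] at hd1
    have h3 : m ∣ lam ^ 2 * (lam + 2 * e - lam * c) := (Int.dvd_add_left (dvd_mul_right _ _)).mp hd1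
    have h4 : |m| ≤ |lam ^ 2 * (lam + 2 * e - lam * c)| := by
      apply Int.le_of_dvd
      · rw [abs_pos]; exact mul_ne_zero (by positivity) h0
      · exact (abs_dvd_abs _ _).mpr h3
    have h5 : |lam ^ 2 * (lam + 2 * e - lam * c)| ≤ lam ^ 2 * (lam * (c - 1)) := by
      rw [abs_mul, abs_of_nonneg (by positivity : (0:ℤ) ≤ lam ^ 2)]
      apply mul_le_mul_of_nonneg_left _ (by positivity)
      rw [abs_le]
      constructor <;> nlinarith
    have h6 : lam ^ 2 * (lam * (c - 1)) = lam ^ 3 * (c - 1) := by ring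
    have h7 : lam ^ 3 * (c - 1) ≤ 2 * lam ^ 3 * c := by nlinarith
    linarith

end Pool.Agent.H189R2.Hall
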