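import Mathlib
import Pool.Agent.H189R2.Hall.Mat
import Pool.Agent.H189R2.Hall.NT

set_option autoImplicit false

namespace Pool.Agent.H189R2.Hall

open Finset

section
variable {G Q : Type*} [Group G] [Fintype G] [DecidableEq G] [Group Q] [Fintype Q] [DecidableEq Q]

/-- multiplicity of the image of `D` -/
def wt (φ : G →* Q) (D : Finset G) (q : Q) : ℤ := ∑ d ∈ D, if φ d = q then 1 else 0

theorem wt_nonneg (φ : G →* Q) (D : Finset G) (q : Q) : 0 ≤ wt φ D q := by
  unfold wt
  exact Finset.sum_nonneg (fun d _ => by split_ifs <;> norm_num)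

theorem wt_sum (φ : G →* Q) (D : Finset G) : ∑ q, wt φ D q = D.card := by
  unfold wt
  rw [Finset.sum_comm]
  simp

theorem fib_card (φ : G →* Q) (hφ : Function.Surjective φ) (q : Q) :
    ∑ g : G, (if φ g = q then (1:ℤ) else 0) = Nat.card φ.ker := by
  obtain ⟨g0, hg0⟩ := hφ q
  rw [← Finset.sum_filter, Finset.sum_const, nsmul_eq_mul, mul_one]
  congr 1
  rw [Nat.card_eq_fintype_card, Fintype.card_subtype]
  refine Finset.card_bij (fun g _ => g0⁻¹ * g) ?_ ?_ ?_
  · intro g hg
    simp only [Finset.mem_filter, Finset.mem_univ, true_and, MonoidHom.mem_ker, map_mul, map_inv] at hg ⊢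
    rw [hg0, hg]; simp
  · intro a _ b _ h
    exact mul_left_cancel h
  · intro b hb
    simp only [Finset.mem_filter, Finset.mem_univ, true_and, MonoidHom.mem_ker] at hb
    refine ⟨g0 * b, ?_, by simp⟩
    simp [hb, hg0]

theorem quot_conv (φ : G →* Q) (hφ : Function.Surjective φ) (D : Finset G) (lam : ℤ)
    (hD : ∀ g : G, g ≠ 1 → (∑ d ∈ D, ∑ e ∈ D, if d * e⁻¹ = g then (1:ℤ) else 0) = lam) (q : Q) :
    ∑ x, wt φ D (q * x) * wt φ D x =
      (if q = 1 then (D.card : ℤ) - lam else 0) + lam * Nat.card φ.ker := by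
  have h1 : ∑ g : G, (if φ g = q then (1:ℤ) else 0) * (∑ d ∈ D, ∑ e ∈ D, if d * e⁻¹ = g then (1:ℤ) else 0)
      = ∑ x, wt φ D (q * x) * wt φ D x := by
    have l : ∑ g : G, (if φ g = q then (1:ℤ) else 0) *
        (∑ d ∈ D, ∑ e ∈ D, if d * e⁻¹ = g then (1:ℤ) else 0)
        = ∑ d ∈ D, ∑ e ∈ D, if φ d = q * φ e then (1:ℤ) else 0 := by
      simp_rw [Finset.mul_sum]
      rw [Finset.sum_comm]
      refine Finset.sum_congr rfl fun d _ => ?_
      rw [Finset.sum_comm]
      refine Finset.sum_congr rfl fun e _ => ?_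
      rw [Finset.sum_eq_single (d * e⁻¹)]
      · simp only [if_true, mul_one, map_mul, map_inv, mul_inv_eq_iff_eq_mul]
      · intro g _ hg
        rw [if_neg (fun h : d * e⁻¹ = g => hg h.symm)]; simp
      · intro h; exact absurd (Finset.mem_univ _) h
    have r : ∑ x, wt φ D (q * x) * wt φ D x
        = ∑ d ∈ D, ∑ e ∈ D, if φ d = q * φ e then (1:ℤ) else 0 := by
      unfold wt
      simp_rw [Finset.sum_mul_sum]
      rw [Finset.sum_comm]
      refine Finset.sum_congr rfl fun d _ => ?_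
      rw [Finset.sum_comm]
      refine Finset.sum_congr rfl fun e _ => ?_
      rw [Finset.sum_eq_single (φ e)]
      · simp
      · intro x _ hx
        rw [if_neg (fun h : φ e = x => hx h.symm)]; simp
      · intro h; exact absurd (Finset.mem_univ _) h
    rw [l, r]
  rw [← h1]
  have h2 : ∀ g : G, (∑ d ∈ D, ∑ e ∈ D, if d * e⁻¹ = g then (1:ℤ) else 0)
      = lam + (if g = 1 then (D.card : ℤ) - lam else 0) := by
    intro g
    by_cases hg : g = 1
    · subst hg
      simp only [mul_inv_eq_one, if_true]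
      rw [Finset.sum_congr rfl (g := fun d => (1:ℤ))]
      · simp
      · intro d hd
        rw [Finset.sum_ite_eq]; simp [hd]
    · rw [hD g hg]; simp [hg]
  simp_rw [h2]
  simp_rw [mul_add, Finset.sum_add_distrib, ← Finset.sum_mul, fib_card φ hφ q]
  have h3 : ∑ i : G, (if φ i = q then (1:ℤ) else 0) * (if i = 1 then (D.card : ℤ) - lam else 0)
      = if q = 1 then (D.card : ℤ) - lam else 0 := by
    rw [Finset.sum_eq_single (1 : G)]
    · simp [eq_comm]
    · intro g _ hg; simp [hg]
    · intro h; exact absurd (Finset.mem_univ _) h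
  rw [h3]; ring

/-- splitting a sum along an index two subgroup -/
theorem sum_split (M : Subgroup Q) [DecidablePred (· ∈ M)] (hM : M.index = 2) (θ : Q) (hθ : θ ∉ M)
    (f : Q → ℤ) : ∑ x, f x = ∑ h : M, f h + ∑ h : M, f (h * θ) := by
  rw [← Finset.sum_filter_add_sum_filter_not Finset.univ (· ∈ M)]
  congr 1
  · symm
    refine Finset.sum_bij (fun h _ => (h : Q)) ?_ ?_ ?_ ?_
    · intro h _; simp
    · intro a _ b _ hab; exact Subtype.ext hab
    · intro b hb
      exact ⟨⟨b, by simpa using hb⟩, Finset.mem_univ _, rfl⟩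
    · intro a _; rfl
  · symm
    refine Finset.sum_bij (fun h _ => (h : Q) * θ) ?_ ?_ ?_ ?_
    · intro h _
      simp only [Finset.mem_filter, Finset.mem_univ, true_and]
      rw [Subgroup.mul_mem_iff_of_index_two hM]
      simp [hθ]
    · intro a _ b _ hab; exact Subtype.ext (mul_right_cancel hab)
    · intro b hb
      simp only [Finset.mem_filter, Finset.mem_univ, true_and] at hb
      refine ⟨⟨b * θ⁻¹, ?_⟩, Finset.mem_univ _, by simp⟩
      rw [Subgroup.mul_mem_iff_of_index_two hM]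
      simp [hθ, hb]
    · intro a _; rfl

/-- main group-theoretic result: difference sets in a group with a generalized dihedral quotient -/
theorem dihedral_bound (φ : G →* Q) (hφ : Function.Surjective φ) (D : Finset G) (lam : ℤ)
    (hlam : 1 ≤ lam) (hk : lam < D.card)
    (hD : ∀ g : G, g ≠ 1 → (∑ d ∈ D, ∑ e ∈ D, if d * e⁻¹ = g then (1:ℤ) else 0) = lam)
    (M : Subgroup Q) (hM : M.index = 2) (hdih : ∀ q : Q, q ∉ M → q * q = 1) :
    ∃ m : ℤ, (D.card : ℤ) = m ^ 2 + lam ∧ |m| ≤ 2 * lam ^ 3 * Nat.card φ.ker := by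
  classical
  -- a non-element of `M`
  have hθ : ∃ θ : Q, θ ∉ M := by
    by_contra hcon
    push Not at hcon
    have : M = ⊤ := (Subgroup.eq_top_iff' M).mpr hcon
    rw [this, Subgroup.index_top] at hM
    norm_num at hM
  obtain ⟨θ, hθ⟩ := hθ
  have hθ2 : θ * θ = 1 := hdih θ hθ
  have hinv : ∀ u ∈ M, θ * u * θ = u⁻¹ := by
    intro u hu
    have : u * θ ∉ M := by
      rw [Subgroup.mul_mem_iff_of_index_two hM]; simp [hθ, hu]
    have h := hdih _ this
    have h' : u * (θ * u * θ) = 1 := by simpa [mul_assoc] using h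
    exact (inv_eq_of_mul_eq_one_right h').symm
  have hθu : ∀ u ∈ M, θ * u = u⁻¹ * θ := by
    intro u hu
    rw [← hinv u hu, mul_assoc, hθ2, mul_one]
  have hcomm : ∀ x y : M, x * y = y * x := by
    intro x y
    have h1 := hinv (x * y) (M.mul_mem x.2 y.2)
    have h2 : θ * (x * y) * θ = (θ * x * θ) * (θ * y * θ) := by
      calc θ * (x * y) * θ = θ * x * 1 * y * θ := by simp [mul_assoc]
        _ = θ * x * (θ * θ) * y * θ := by rw [hθ2]
        _ = _ := by simp [mul_assoc]
    rw [h2, hinv x x.2, hinv y y.2] at h1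
    have h3 : (y * x : Q) = x * y := by
      have := congrArg (·⁻¹) h1
      simpa using this
    exact Subtype.ext h3.symm
  set w := wt φ D with hw
  set c : ℤ := (Nat.card φ.ker : ℤ) with hc
  have hc1 : 1 ≤ c := by
    rw [hc]
    have : 0 < Nat.card φ.ker := Nat.card_pos
    exact_mod_cast this
  have conv := quot_conv φ hφ D lam hD
  set k : ℤ := (D.card : ℤ) with hkdef
  have H1 : ∀ q : M, ∑ u : M, w ((q * u : M) : Q) * w u + ∑ u : M, w (((q * u : M) : Q) * θ) * w (u * θ)
      = (if q = 1 then k - lam else 0) + lam * c := by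
    intro q
    have h := conv q
    rw [sum_split M hM θ hθ] at h
    have e1 : ((q : Q) = 1) = (q = 1) := by
      rw [eq_iff_iff]; exact ⟨fun h => Subtype.ext h, fun h => by rw [h]; rfl⟩
    simp only [e1] at h
    rw [← h]
    simp only [Subgroup.coe_mul, mul_assoc]
    rfl
  have H2 : ∀ q : M, 2 * ∑ u : M, w u * w (((u⁻¹ * q : M) : Q) * θ) = lam * c := by
    intro q
    have h := conv (q * θ)
    rw [sum_split M hM θ hθ] at h
    have hne : (q : Q) * θ ≠ 1 := by
      intro h'
      apply hθ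
      have : θ = (q : Q)⁻¹ := (inv_eq_of_mul_eq_one_right h').symm
      rw [this]; exact M.inv_mem q.2
    rw [if_neg hne, zero_add] at h
    rw [← h, two_mul]
    congr 1
    · refine Finset.sum_congr rfl fun u _ => ?_
      have : ((u⁻¹ * q : M) : Q) * θ = q * θ * u := by
        rw [mul_assoc, hθu u u.2, hcomm, Subgroup.coe_mul]; simp [mul_assoc]
      rw [this, mul_comm]
    · refine Fintype.sum_equiv ((Equiv.inv M).trans (Equiv.mulRight q)) _ _ ?_
      intro u
      have e2 : ((((Equiv.inv M).trans (Equiv.mulRight q)) u : M)) = u⁻¹ * q := rfl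
      rw [e2]
      have e3 : (q : Q) * θ * (((u⁻¹ * q : M) : Q) * θ) = u := by
        have : (q : Q) * θ * (((u⁻¹ * q : M) : Q) * θ) = q * (θ * ((u⁻¹ * q : M) : Q) * θ) := by
          simp [mul_assoc]
        rw [this, hinv _ (u⁻¹ * q : M).2]
        simp
      rw [e3]
  -- cast to rationals
  have hn : (((k - lam : ℤ)) : ℚ) ≠ 0 := by
    have : k - lam ≠ 0 := by omega
    exact_mod_cast this
  obtain ⟨⟨s, hs⟩, s1, s2⟩ := key (H := M) hcomm (fun u => ((w u : ℤ) : ℚ))
    (fun u => ((w ((u : Q) * θ) : ℤ) : ℚ)) ((k - lam : ℤ) : ℚ) ((lam * c : ℤ) : ℚ) hn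
    (by
      intro q
      have h := H1 q
      have h' := congrArg (fun z : ℤ => (z : ℚ)) h
      push_cast at h' ⊢
      rw [h'])
    (by
      intro q
      have h := H2 q
      have h' := congrArg (fun z : ℤ => (z : ℚ)) h
      push_cast at h' ⊢
      rw [h'])
  set α : ℤ := ∑ u : M, w u with hα
  set β : ℤ := ∑ u : M, w ((u : Q) * θ) with hβ
  set A2 : ℤ := ∑ u : M, w u ^ 2 with hA2
  set h : ℤ := (Fintype.card M : ℤ) with hh
  have hs' : (k - lam) * s = h * A2 - α ^ 2 := by
    have : (((k - lam) * s : ℤ) : ℚ) = ((h * A2 - α ^ 2 : ℤ) : ℚ) := by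
      rw [hα, hA2, hh]; push_cast at hs ⊢; exact hs
    exact_mod_cast this
  have s1' : α ^ 2 + β ^ 2 = (k - lam) + lam * c * h := by
    have : ((α ^ 2 + β ^ 2 : ℤ) : ℚ) = (((k - lam) + lam * c * h : ℤ) : ℚ) := by
      rw [hα, hβ, hh]; push_cast at s1 ⊢; exact s1
    exact_mod_cast this
  have s2' : 2 * (α * β) = lam * c * h := by
    have : ((2 * (α * β) : ℤ) : ℚ) = ((lam * c * h : ℤ) : ℚ) := by
      rw [hα, hβ, hh]; push_cast at s2 ⊢; exact s2
    exact_mod_cast this
  have hsum : α + β = k := by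
    rw [hα, hβ, ← sum_split M hM θ hθ, hw, wt_sum]
  have hn2 : (α - β) ^ 2 = k - lam := by
    have : (α - β) ^ 2 = (α ^ 2 + β ^ 2) - 2 * (α * β) := by ring
    rw [this, s1', s2']; ring
  -- epsilon
  have hsq : ∀ z : ℤ, 0 ≤ z → 0 ≤ z ^ 2 - z := by
    intro z hz
    rcases eq_or_lt_of_le hz with h0 | h0
    · rw [← h0]; norm_num
    · nlinarith
  have heps : 0 ≤ A2 - α := by
    rw [hA2, hα, ← Finset.sum_sub_distrib]
    exact Finset.sum_nonneg fun u _ => hsq _ (wt_nonneg _ _ _)
  have heps2 : A2 - α ≤ lam * (c - 1) := by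
    have h3 := conv 1
    rw [sum_split M hM θ hθ] at h3
    simp only [one_mul, if_true] at h3
    have h4 : ∑ u : M, w u * w u = A2 := by
      rw [hA2]; exact Finset.sum_congr rfl fun u _ => by ring
    rw [h4] at h3
    have h5 : 0 ≤ ∑ u : M, w (u * θ) * w (u * θ) - β := by
      rw [hβ, ← Finset.sum_sub_distrib]
      refine Finset.sum_nonneg fun u _ => ?_
      have := hsq (w (u * θ)) (wt_nonneg _ _ _)
      rw [sq] at this; exact this
    linarith
  refine ⟨α - β, by rw [hn2]; ring, ?_⟩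
  refine nt (α - β) lam c (A2 - α) s h (2 * α) (2 * β) hlam hc1 heps heps2 ?_ ?_ ?_ ?_
  · rw [hn2]; linarith
  · rw [hn2]; linarith
  · linear_combination 2 * s2'
  · rw [hn2]
    linear_combination 4 * hs'

end

end Pool.Agent.H189R2.Hall
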